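import Pool.Agent.helper45.TF.Defs2

/-! # MP_5b8da6_gt, module tf:IFT: a curve in a level set (helper14) -/

namespace Pool.Agent.helper45.TF

open Set Topology Filter

theorem IFT_ker {m n : ℕ} (h : m < n) (F' : (Fin n → ℝ) →L[ℝ] (Fin m → ℝ)) :
    ∃ v : F'.ker, v ≠ 0 := by
  have hpos : (0 : ℕ) < Module.finrank ℝ (LinearMap.ker F'.toLinearMap) := by
    have h1 := LinearMap.finrank_range_add_finrank_ker F'.toLinearMap
    have h2 : Module.finrank ℝ (LinearMap.range F'.toLinearMap) ≤ m := by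
      have := Submodule.finrank_le (LinearMap.range F'.toLinearMap)
      rwa [Module.finrank_fin_fun] at this
    rw [Module.finrank_fin_fun] at h1
    omega
  have hnt : Nontrivial (LinearMap.ker F'.toLinearMap) := Module.finrank_pos_iff.1 hpos
  obtain ⟨v, hv⟩ := exists_ne (0 : LinearMap.ker F'.toLinearMap)
  exact ⟨v, hv⟩

theorem IFT : IFT_stmt := by
  intro m n F F' z0 hmn hF hsurj ε hε
  have hr : F'.range = ⊤ := LinearMap.range_eq_top.2 hsurj
  obtain ⟨v, hv⟩ := IFT_ker hmn F'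
  set φ := hF.implicitToOpenPartialHomeomorph F F' hr with hφ
  have htgt : (F z0, (0 : F'.ker)) ∈ φ.target := hF.mem_implicitToOpenPartialHomeomorph_target hr
  have hsrc : z0 ∈ φ.source := hF.mem_implicitToOpenPartialHomeomorph_source hr
  have hself : φ z0 = (F z0, 0) := hF.implicitToOpenPartialHomeomorph_self hr
  have hsymm0 : φ.symm (F z0, 0) = z0 := by
    rw [← hself]
    exact φ.left_inv hsrc
  -- good neighbourhood
  have hev : ∀ᶠ p : (Fin m → ℝ) × F'.ker in 𝓝 (F z0, 0), p ∈ φ.target ∧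
      dist (φ.symm p) z0 < ε := by
    have h1 : ∀ᶠ p : (Fin m → ℝ) × F'.ker in 𝓝 (F z0, 0), p ∈ φ.target :=
      φ.open_target.mem_nhds htgt
    have hc : ContinuousAt φ.symm (F z0, 0) := φ.continuousAt_symm htgt
    have h2 := hc.tendsto
    rw [hsymm0] at h2
    have h3 : ∀ᶠ p : (Fin m → ℝ) × F'.ker in 𝓝 (F z0, 0), dist (φ.symm p) z0 < ε :=
      h2 (Metric.ball_mem_nhds z0 hε)
    exact h1.and h3
  have hcont : Continuous (fun s : ℝ => ((F z0, s • v) : (Fin m → ℝ) × F'.ker)) := by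
    fun_prop
  have hev2 : ∀ᶠ s : ℝ in 𝓝 0, (F z0, s • v) ∈ φ.target ∧
      dist (φ.symm (F z0, s • v)) z0 < ε := by
    have h0 : Tendsto (fun s : ℝ => ((F z0, s • v) : (Fin m → ℝ) × F'.ker)) (𝓝 0)
        (𝓝 (F z0, 0)) := by
      have := hcont.tendsto 0
      simpa using this
    exact h0.eventually hev
  obtain ⟨δ, hδ, hball⟩ := Metric.eventually_nhds_iff.1 hev2
  have hball' : ∀ t : unitInterval, (F z0, ((t : ℝ) * (δ / 2)) • v) ∈ φ.target ∧
      dist (φ.symm (F z0, ((t : ℝ) * (δ / 2)) • v)) z0 < ε := by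
    intro t
    apply hball
    rw [Real.dist_eq, sub_zero, abs_of_nonneg (mul_nonneg t.2.1 (by positivity))]
    have := t.2.2
    nlinarith
  refine ⟨fun t => φ.symm (F z0, ((t : ℝ) * (δ / 2)) • v), ?_, ?_, ?_, ?_⟩
  · refine ContinuousOn.comp_continuous φ.continuousOn_symm ?_ (fun t => (hball' t).1)
    fun_prop
  · simp [hsymm0]
  · intro h
    have h1 := φ.right_inv (hball' 1).1
    simp only [Set.Icc.coe_one, one_mul] at h1 h
    rw [h, hself, Prod.mk.injEq] at h1
    have h2 : (δ / 2) • v = 0 := h1.2.symm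
    rcases smul_eq_zero.1 h2 with h3 | h3
    · linarith
    · exact hv h3
  · intro t
    refine ⟨?_, (hball' t).2⟩
    have h1 := φ.right_inv (hball' t).1
    have h2 : (φ (φ.symm (F z0, ((t : ℝ) * (δ / 2)) • v))).1 = F z0 := by rw [h1]
    rwa [hφ, HasStrictFDerivAt.implicitToOpenPartialHomeomorph_fst] at h2

end Pool.Agent.helper45.TF
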